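import Mathlib

set_option autoImplicit false

namespace Pool.Agent.Helper56.Quat

/-! ### Arithmetic in an ordered field -/

section arith

variable {k : Type*} [Field k] [LinearOrder k] [IsStrictOrderedRing k]


lemma key_identity (p1 p2 p3 r1 r2 r3 : k) (h : p1 * r1 + p2 * r2 + p3 * r3 = 0) :
    (r1 ^ 2 + r2 ^ 2 + r3 ^ 2) * p3 ^ 2 + (p1 ^ 2 + p2 ^ 2 + p3 ^ 2) * r3 ^ 2 +
      (p1 * r2 - p2 * r1) ^ 2 = (p1 ^ 2 + p2 ^ 2 + p3 ^ 2) * (r1 ^ 2 + r2 ^ 2 + r3 ^ 2) := by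
  linear_combination (p3 * r3 - p1 * r1 - p2 * r2) * h

/-- one instance of the construction: `i = 2`, `j = 3`, `k = 1` -/
lemma step (p1 p2 p3 r1 r2 r3 : k) (h : p1 * r1 + p2 * r2 + p3 * r3 = 0)
    (a b : k) (ha : a = p1 ^ 2 + p2 ^ 2 + p3 ^ 2) (hb : b = r1 ^ 2 + r2 ^ 2 + r3 ^ 2)
    (hb0 : 0 < b) (hlt : (p1 * r2 - p2 * r1) ^ 2 < b * p2 ^ 2) :
    ∃ x u w u' w' : k, x < 0 ∧ u ^ 2 - x = a * b * w ^ 2 ∧ u' ^ 2 - b * x = b * w' ^ 2 := by
  have hk := key_identity p1 p2 p3 r1 r2 r3 h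
  rw [← ha, ← hb] at hk
  refine ⟨b * ((p1 * r2 - p2 * r1) ^ 2 - b * p2 ^ 2), b * p1, r3, b * (p1 * r2 - p2 * r1),
    b * p2, ?_, ?_, ?_⟩
  · nlinarith
  · have : a = p1 ^ 2 + p2 ^ 2 + p3 ^ 2 := ha
    linear_combination (-b) * hk + b ^ 2 * ha.symm
  · ring

/-- final contradiction -/
lemma contra (p1 p2 p3 r1 r2 r3 a b c1 c2 c3 : k) (h : p1 * r1 + p2 * r2 + p3 * r3 = 0)
    (ha : a = p1 ^ 2 + p2 ^ 2 + p3 ^ 2) (ha0 : 0 < a) (hb0 : 0 < b)
    (hsum : c1 ^ 2 + c2 ^ 2 + c3 ^ 2 = a * b)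
    (k3 : b * p3 ^ 2 + a * r3 ^ 2 + c3 ^ 2 = a * b)
    (k1 : b * p1 ^ 2 + a * r1 ^ 2 + c1 ^ 2 = a * b)
    (k2 : b * p2 ^ 2 + a * r2 ^ 2 + c2 ^ 2 = a * b)
    (e32 : b * p2 ^ 2 ≤ c3 ^ 2) (e31 : b * p1 ^ 2 ≤ c3 ^ 2)
    (e12 : b * p2 ^ 2 ≤ c1 ^ 2) (e13 : b * p3 ^ 2 ≤ c1 ^ 2)
    (e21 : b * p1 ^ 2 ≤ c2 ^ 2) (e23 : b * p3 ^ 2 ≤ c2 ^ 2) : False := by
  have hab : a * b = b * p1 ^ 2 + b * p2 ^ 2 + b * p3 ^ 2 := by rw [ha]; ring
  have q1 : c1 ^ 2 = b * p2 ^ 2 := by linarith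
  have q1' : c1 ^ 2 = b * p3 ^ 2 := by linarith
  have q2 : c2 ^ 2 = b * p3 ^ 2 := by linarith
  have q2' : c2 ^ 2 = b * p1 ^ 2 := by linarith
  have q3 : c3 ^ 2 = b * p1 ^ 2 := by linarith
  have hp23 : p2 ^ 2 = p3 ^ 2 := by
    have : b * p2 ^ 2 = b * p3 ^ 2 := by linarith
    exact mul_left_cancel₀ hb0.ne' this
  have hp13 : p1 ^ 2 = p3 ^ 2 := by
    have : b * p1 ^ 2 = b * p3 ^ 2 := by linarith
    exact mul_left_cancel₀ hb0.ne' this
  have ha3 : a = 3 * p3 ^ 2 := by rw [ha, hp13, hp23]; ring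
  have hp30 : 0 < p3 ^ 2 := by linarith
  have z3 : 3 * p3 ^ 2 * r3 ^ 2 = p3 ^ 2 * b := by
    rw [q3, ha3, hp13] at k3
    linarith
  have z1 : 3 * p3 ^ 2 * r1 ^ 2 = p3 ^ 2 * b := by
    rw [q1', ha3, hp13] at k1
    linarith
  have z2 : 3 * p3 ^ 2 * r2 ^ 2 = p3 ^ 2 * b := by
    rw [q2, ha3, hp23] at k2
    linarith
  obtain ⟨t, ht⟩ : ∃ t, t = p3 ^ 2 * b / 3 := ⟨_, rfl⟩
  have htpos : 0 < t := by rw [ht]; positivity
  have t1 : (p1 * r1) ^ 2 = t := by rw [mul_pow, hp13, ht]; linarith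
  have t2 : (p2 * r2) ^ 2 = t := by rw [mul_pow, hp23, ht]; linarith
  have t3 : (p3 * r3) ^ 2 = t := by rw [mul_pow, ht]; linarith
  have hprod : 2 * ((p1 * r1) * (p2 * r2)) = -t := by
    have h4 : (p3 * r3) ^ 2 = (p1 * r1) ^ 2 + 2 * ((p1 * r1) * (p2 * r2)) + (p2 * r2) ^ 2 := by
      have : p3 * r3 = -(p1 * r1 + p2 * r2) := by linarith
      rw [this]; ring
    rw [t1, t2, t3] at h4
    linarith
  have hprod2 : (2 * ((p1 * r1) * (p2 * r2))) ^ 2 = 4 * (t * t) := by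
    have : (2 * ((p1 * r1) * (p2 * r2))) ^ 2 = 4 * ((p1 * r1) ^ 2 * (p2 * r2) ^ 2) := by ring
    rw [this, t1, t2]
  rw [hprod] at hprod2
  have : 0 < t * t := by positivity
  have h9 : (-t) ^ 2 = t * t := by ring
  linarith

lemma choose_x (p1 p2 p3 r1 r2 r3 : k) (h : p1 * r1 + p2 * r2 + p3 * r3 = 0)
    (a b : k) (ha : a = p1 ^ 2 + p2 ^ 2 + p3 ^ 2) (hb : b = r1 ^ 2 + r2 ^ 2 + r3 ^ 2)
    (ha0 : 0 < a) (hb0 : 0 < b) :
    ∃ x u w u' w' : k, x < 0 ∧ u ^ 2 - x = a * b * w ^ 2 ∧ u' ^ 2 - b * x = b * w' ^ 2 := by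
  by_contra hcon
  have k3 := key_identity p1 p2 p3 r1 r2 r3 h
  have k1 := key_identity p2 p3 p1 r2 r3 r1 (by linarith)
  have k2 := key_identity p3 p1 p2 r3 r1 r2 (by linarith)
  have f1 : p2 ^ 2 + p3 ^ 2 + p1 ^ 2 = a := by linarith
  have f2 : p3 ^ 2 + p1 ^ 2 + p2 ^ 2 = a := by linarith
  have g1 : r2 ^ 2 + r3 ^ 2 + r1 ^ 2 = b := by linarith
  have g2 : r3 ^ 2 + r1 ^ 2 + r2 ^ 2 = b := by linarith
  rw [← ha, ← hb] at k3
  rw [f1, g1] at k1
  rw [f2, g2] at k2
  refine contra p1 p2 p3 r1 r2 r3 a b (p2 * r3 - p3 * r2) (p3 * r1 - p1 * r3)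
    (p1 * r2 - p2 * r1) h ha ha0 hb0 ?_ k3 k1 k2 ?_ ?_ ?_ ?_ ?_ ?_
  · rw [ha, hb]
    linear_combination (-(p1 * r1 + p2 * r2 + p3 * r3)) * h
  · by_contra hlt
    push Not at hlt
    exact hcon (step p1 p2 p3 r1 r2 r3 h a b ha hb hb0 hlt)
  · by_contra hlt
    push Not at hlt
    refine hcon (step p2 p1 p3 r2 r1 r3 (by linarith) a b (by linarith) (by linarith) hb0 ?_)
    have : (p2 * r1 - p1 * r2) ^ 2 = (p1 * r2 - p2 * r1) ^ 2 := by ring
    rw [this]; exact hlt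
  · by_contra hlt
    push Not at hlt
    refine hcon (step p3 p2 p1 r3 r2 r1 (by linarith) a b (by linarith) (by linarith) hb0 ?_)
    have : (p3 * r2 - p2 * r3) ^ 2 = (p2 * r3 - p3 * r2) ^ 2 := by ring
    rw [this]; exact hlt
  · by_contra hlt
    push Not at hlt
    exact hcon (step p2 p3 p1 r2 r3 r1 (by linarith) a b (by linarith) (by linarith) hb0 hlt)
  · by_contra hlt
    push Not at hlt
    exact hcon (step p3 p1 p2 r3 r1 r2 (by linarith) a b (by linarith) (by linarith) hb0 hlt)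
  · by_contra hlt
    push Not at hlt
    refine hcon (step p1 p3 p2 r1 r3 r2 (by linarith) a b (by linarith) (by linarith) hb0 ?_)
    have : (p1 * r3 - p3 * r1) ^ 2 = (p3 * r1 - p1 * r3) ^ 2 := by ring
    rw [this]; exact hlt

end arith

/-! ### The groups -/

abbrev Q8 := QuaternionGroup 2
abbrev D4 := DihedralGroup 4

/-- the two characters and the cochain on the quaternion group -/
def cA : Q8 → ZMod 2
  | .a _ => 0
  | .xa _ => 1

def cB : Q8 → ZMod 2
  | .a n => (n.val : ZMod 2)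
  | .xa n => (n.val : ZMod 2)

def cK : Q8 → ZMod 2
  | .a n => if n = 2 ∨ n = 3 then 1 else 0
  | .xa n => if n = 1 ∨ n = 2 then 1 else 0

lemma cA_mul (g h : Q8) : cA (g * h) = cA g + cA h := by
  revert g h; decide

lemma cB_mul (g h : Q8) : cB (g * h) = cB g + cB h := by
  revert g h; decide

lemma cK_mul (g h : Q8) :
    cK (g * h) = cK g + cK h + (cA g * cA h + cA g * cB h + cB g * cB h) := by
  revert g h; decide

lemma q8_eq_one (g : Q8) (h1 : cA g = 0) (h2 : cB g = 0) (h3 : cK g = 0) : g = 1 := by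
  revert g; decide

/-- coordinates on the dihedral group -/
def hD (c d l : ZMod 2) : D4 :=
  if c = 0 then
    (if d = 0 then (if l = 0 then .r 0 else .r 2) else (if l = 0 then .sr 1 else .sr 3))
  else
    (if d = 0 then (if l = 0 then .sr 0 else .sr 2) else (if l = 0 then .r 1 else .r 3))

lemma hD_mul (c d l c' d' l' : ZMod 2) :
    hD (c + c') (d + d') (l + l' + d * c') = hD c d l * hD c' d' l' := by
  revert c d l c' d' l'; decide

lemma hD_eq_one (c d l : ZMod 2) (h : hD c d l = 1) : c = 0 ∧ d = 0 ∧ l = 0 := by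
  revert c d l; decide

lemma hD_inj (c d l c' d' l' : ZMod 2) (h : hD c d l = hD c' d' l') : c = c' ∧ d = d' ∧ l = l' := by
  revert c d l c' d' l'; decide

/-- a homomorphism to the dihedral group from two characters and a cochain -/
def homD {G : Type*} [Group G] (c d l : G → ZMod 2)
    (hc : ∀ g h, c (g * h) = c g + c h) (hd : ∀ g h, d (g * h) = d g + d h)
    (hl : ∀ g h, l (g * h) = l g + l h + d g * c h) : G →* D4 where
  toFun g := hD (c g) (d g) (l g)
  map_one' := by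
    have h1 : c 1 = 0 := by have := hc 1 1; rw [mul_one] at this; simpa using this
    have h2 : d 1 = 0 := by have := hd 1 1; rw [mul_one] at this; simpa using this
    have h3 : l 1 = 0 := by
      have := hl 1 1; rw [mul_one, h1, mul_zero, add_zero] at this; simpa using this
    rw [h1, h2, h3]; rfl
  map_mul' g h := by rw [hc, hd, hl, hD_mul]

lemma homD_apply {G : Type*} [Group G] (c d l : G → ZMod 2)
    (hc : ∀ g h, c (g * h) = c g + c h) (hd : ∀ g h, d (g * h) = d g + d h)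
    (hl : ∀ g h, l (g * h) = l g + l h + d g * c h) (g : G) :
    homD c d l hc hd hl g = hD (c g) (d g) (l g) := rfl

/-- a subgroup of the dihedral group on which the two coordinate characters and their sum are
nontrivial is everything -/
lemma D4_top (S : Subgroup D4)
    (h1 : ∃ c d l, hD c d l ∈ S ∧ c = 1) (h2 : ∃ c d l, hD c d l ∈ S ∧ d = 1)
    (h3 : ∃ c d l, hD c d l ∈ S ∧ c + d = 1) : S = ⊤ := by
  -- elements of both kinds
  have key : ∀ g h : D4, g ∈ S → h ∈ S →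
      (∀ k : D4, k = 1 ∨ k = g ∨ k = h ∨ k = g * h ∨ k = h * g ∨ k = g * g ∨ k = h * h ∨
        k = g * h * g ∨ k = h * g * h ∨ k = g * h * g * h ∨ k = g * g * h ∨ k = g * g * g ∨
        k = h * h * h ∨ k = h * h * g ∨ k = g * g * g * h) → S = ⊤ := by
    intro g h hg hh hall
    rw [eq_top_iff]
    intro k _
    rcases hall k with rfl | rfl | rfl | rfl | rfl | rfl | rfl | rfl | rfl | rfl | rfl | rfl | rfl |
      rfl | rfl
    · exact S.one_mem
    · exact hg
    · exact hh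
    · exact S.mul_mem hg hh
    · exact S.mul_mem hh hg
    · exact S.mul_mem hg hg
    · exact S.mul_mem hh hh
    · exact S.mul_mem (S.mul_mem hg hh) hg
    · exact S.mul_mem (S.mul_mem hh hg) hh
    · exact S.mul_mem (S.mul_mem (S.mul_mem hg hh) hg) hh
    · exact S.mul_mem (S.mul_mem hg hg) hh
    · exact S.mul_mem (S.mul_mem hg hg) hg
    · exact S.mul_mem (S.mul_mem hh hh) hh
    · exact S.mul_mem (S.mul_mem hh hh) hg
    · exact S.mul_mem (S.mul_mem (S.mul_mem hg hg) hg) hh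
  have gen : ∀ c d l c' d' l' : ZMod 2, c * d' + c' * d = 1 →
      ∀ k : D4, k = 1 ∨ k = hD c d l ∨ k = hD c' d' l' ∨ k = hD c d l * hD c' d' l' ∨
        k = hD c' d' l' * hD c d l ∨ k = hD c d l * hD c d l ∨ k = hD c' d' l' * hD c' d' l' ∨
        k = hD c d l * hD c' d' l' * hD c d l ∨ k = hD c' d' l' * hD c d l * hD c' d' l' ∨
        k = hD c d l * hD c' d' l' * hD c d l * hD c' d' l' ∨
        k = hD c d l * hD c d l * hD c' d' l' ∨ k = hD c d l * hD c d l * hD c d l ∨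
        k = hD c' d' l' * hD c' d' l' * hD c' d' l' ∨
        k = hD c' d' l' * hD c' d' l' * hD c d l ∨
        k = hD c d l * hD c d l * hD c d l * hD c' d' l' := by
    decide
  obtain ⟨c1, d1, l1, m1, e1⟩ := h1
  obtain ⟨c2, d2, l2, m2, e2⟩ := h2
  obtain ⟨c3, d3, l3, m3, e3⟩ := h3
  have hcase : c1 * d2 + c2 * d1 = 1 ∨ c1 * d3 + c3 * d1 = 1 ∨ c2 * d3 + c3 * d2 = 1 := by
    have : ∀ c1 d1 c2 d2 c3 d3 : ZMod 2, c1 = 1 → d2 = 1 → c3 + d3 = 1 →
        (c1 * d2 + c2 * d1 = 1 ∨ c1 * d3 + c3 * d1 = 1 ∨ c2 * d3 + c3 * d2 = 1) := by decide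
    exact this c1 d1 c2 d2 c3 d3 e1 e2 e3
  rcases hcase with h | h | h
  · exact key _ _ m1 m2 (gen _ _ l1 _ _ l2 h)
  · exact key _ _ m1 m3 (gen _ _ l1 _ _ l3 h)
  · exact key _ _ m2 m3 (gen _ _ l2 _ _ l3 h)

lemma hD_surj (k : D4) : ∃ c d l, hD c d l = k := by
  revert k; decide

/-! ### The counting argument -/

open Finset in
lemma card_fiber {P D : Type*} [Group P] [Group D] [Fintype P] [Fintype D] [DecidableEq D]
    (f : P →* D) (hf : Function.Surjective f) (S : Finset D) :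
    Fintype.card D * (Finset.univ.filter (fun p => f p ∈ S)).card = S.card * Fintype.card P := by
  classical
  set k := (Finset.univ.filter (fun p => f p = 1)).card with hk
  have hfib : ∀ x : D, (Finset.univ.filter (fun p => f p = x)).card = k := by
    intro x
    exact MonoidHom.card_fiber_eq_of_mem_range f (hf x) (hf 1)
  have h1 : ∀ T : Finset D, (Finset.univ.filter (fun p => f p ∈ T)).card = T.card * k := by
    intro T
    have h2 := Finset.card_eq_sum_card_fiberwise (f := f)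
      (s := Finset.univ.filter (fun p => f p ∈ T)) (t := T)
      (fun p hp => by simpa using hp)
    rw [h2]
    rw [Finset.sum_congr rfl (g := fun _ => k)]
    · simp
    · intro x hx
      rw [← hfib x]
      congr 1
      ext p
      simp only [Finset.mem_filter, Finset.mem_univ, true_and]
      constructor
      · rintro ⟨_, h⟩; exact h
      · intro h; exact ⟨by rw [h]; exact hx, h⟩
  have h3 : Fintype.card P = Fintype.card D * k := by
    have := h1 Finset.univ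
    simpa [Finset.card_univ] using this
  rw [h1 S, h3]; ring

lemma three_le {P : Type*} [Group P] [Fintype P] (m : ℕ) (f : Fin m → P →* D4)
    (hf : ∀ i, Function.Surjective (f i)) (hinj : ∀ p, (∀ i, f i p = 1) → p = 1)
    (φ : P →* Q8) (hφ : Function.Surjective φ) : 3 ≤ m := by
  classical
  set SQ : Finset Q8 := Finset.univ.filter (fun q => q * q ≠ 1) with hSQ
  set SD : Finset D4 := Finset.univ.filter (fun q => q * q ≠ 1) with hSD
  have hSQc : SQ.card = 6 := by rw [hSQ]; decide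
  have hSDc : SD.card = 2 := by rw [hSD]; decide
  have cQ : Fintype.card Q8 = 8 := by decide
  have cD : Fintype.card D4 = 8 := by decide
  have h1 := card_fiber φ hφ SQ
  rw [hSQc, cQ] at h1
  have h2 : ∀ i, 8 * (Finset.univ.filter (fun p => f i p ∈ SD)).card = 2 * Fintype.card P := by
    intro i
    have := card_fiber (f i) (hf i) SD
    rwa [hSDc, cD] at this
  have hsub : (Finset.univ.filter (fun p => φ p ∈ SQ)) ⊆
      (Finset.univ : Finset (Fin m)).biUnion (fun i => Finset.univ.filter (fun p => f i p ∈ SD)) := by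
    intro p hp
    simp only [Finset.mem_filter, Finset.mem_univ, true_and, hSQ, Finset.mem_biUnion, hSD] at hp ⊢
    by_contra hcon
    push Not at hcon
    apply hp
    have : p * p = 1 := by
      apply hinj
      intro i
      rw [map_mul]; exact hcon i
    rw [← map_mul, this, map_one]
  have h3 := Finset.card_le_card hsub
  have h4 := Finset.card_biUnion_le (s := (Finset.univ : Finset (Fin m)))
    (t := fun i => Finset.univ.filter (fun p => f i p ∈ SD))
  have h5 : 8 * ∑ i : Fin m, (Finset.univ.filter (fun p => f i p ∈ SD)).card =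
      m * (2 * Fintype.card P) := by
    rw [Finset.mul_sum]
    simp_rw [h2]
    simp
  have hP : 0 < Fintype.card P := Fintype.card_pos
  by_contra hm
  push Not at hm
  have h6 : m ≤ 2 := by omega
  have h7 : m * (2 * Fintype.card P) ≤ 2 * (2 * Fintype.card P) := Nat.mul_le_mul_right _ h6
  omega

end Pool.Agent.Helper56.Quat
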