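import Pool.Agent.Helper56.Quat.Gal

set_option autoImplicit false

namespace Pool.Agent.Helper56.Quat

open IntermediateField

/-! ### Signs -/

/-- the sign `(-1)^e` -/
def sg {R : Type*} [Ring R] (e : ZMod 2) : R := if e = 0 then 1 else -1

lemma sg_zero {R : Type*} [Ring R] : (sg 0 : R) = 1 := by simp [sg]

lemma sg_one {R : Type*} [Ring R] : (sg 1 : R) = -1 := by simp [sg]

lemma zmod2 (e : ZMod 2) : e = 0 ∨ e = 1 := by revert e; decide

lemma sg_add {R : Type*} [Ring R] (e f : ZMod 2) : (sg (e + f) : R) = sg e * sg f := by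
  rcases zmod2 e with rfl | rfl <;> rcases zmod2 f with rfl | rfl
  · simp [sg]
  · simp [sg]
  · simp [sg]
  · have : (1 + 1 : ZMod 2) = 0 := by decide
    rw [this]; simp [sg]

lemma sg_inj {R : Type*} [Field R] [CharZero R] {e f : ZMod 2} (h : (sg e : R) = sg f) : e = f := by
  have h1 : (-1 : R) ≠ 1 := by norm_num
  rcases zmod2 e with rfl | rfl <;> rcases zmod2 f with rfl | rfl
  · rfl
  · rw [sg_zero, sg_one] at h; exact absurd h.symm h1
  · rw [sg_zero, sg_one] at h; exact absurd h h1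
  · rfl

section

variable {k Ω : Type*} [Field k] [Field Ω] [Algebra k Ω] [CharZero Ω]

lemma map_sg (σ : Ω ≃ₐ[k] Ω) (e : ZMod 2) : σ (sg e) = sg e := by
  rcases zmod2 e with rfl | rfl <;> simp [sg]

/-- the quadratic character of a square root -/
lemma exists_char (ξ : Ω) (x : k) (h : ξ ^ 2 = algebraMap k Ω x) :
    ∃ X : (Ω ≃ₐ[k] Ω) → ZMod 2, ∀ σ, σ ξ = sg (X σ) * ξ := by
  have : ∀ σ : Ω ≃ₐ[k] Ω, ∃ e : ZMod 2, σ ξ = sg e * ξ := by
    intro σ
    have h1 : (σ ξ) ^ 2 = ξ ^ 2 := by rw [← map_pow, h, AlgEquiv.commutes]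
    rcases sq_eq_sq_iff_eq_or_eq_neg.1 h1 with h2 | h2
    · exact ⟨0, by rw [sg_zero, one_mul, h2]⟩
    · exact ⟨1, by rw [sg_one, h2]; ring⟩
  choose X hX using this
  exact ⟨X, hX⟩

lemma char_mul (ξ : Ω) (hξ : ξ ≠ 0) (X : (Ω ≃ₐ[k] Ω) → ZMod 2) (hX : ∀ σ, σ ξ = sg (X σ) * ξ)
    (σ τ : Ω ≃ₐ[k] Ω) : X (σ * τ) = X σ + X τ := by
  apply sg_inj (R := Ω)
  apply mul_right_cancel₀ hξ
  rw [← hX, AlgEquiv.mul_apply, hX τ, map_mul, map_sg, hX σ, sg_add]
  ring

/-- the cochain attached to a `D4`-extension -/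
lemma exists_cochain (γc γd : Ω) (c d : (Ω ≃ₐ[k] Ω) → ZMod 2)
    (hc : ∀ σ, σ γc = sg (c σ) * γc) (hd : ∀ σ, σ γd = sg (d σ) * γd)
    (hcm : ∀ σ τ, c (σ * τ) = c σ + c τ)
    (u w : k) (hw : w ≠ 0) (hγd : γd ≠ 0)
    (hnorm : (algebraMap k Ω u) ^ 2 - γc ^ 2 = γd ^ 2 * (algebraMap k Ω w) ^ 2)
    [IsAlgClosed Ω] :
    ∃ (η : Ω) (l : (Ω ≃ₐ[k] Ω) → ZMod 2),
      (∀ σ τ, l (σ * τ) = l σ + l τ + d σ * c τ) ∧
      (∀ σ, c σ = 0 → σ η = η → l σ = 0) := by
  obtain ⟨η, hη⟩ := IsAlgClosed.exists_pow_nat_eq (algebraMap k Ω u + γc) (n := 2) (by norm_num)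
  have hwΩ : algebraMap k Ω w ≠ 0 := by
    rwa [Ne, map_eq_zero]
  have hprod : (algebraMap k Ω u + γc) * (algebraMap k Ω u - γc) = (γd * algebraMap k Ω w) ^ 2 := by
    rw [mul_pow, ← hnorm]; ring
  have hne : (γd * algebraMap k Ω w) ≠ 0 := mul_ne_zero hγd hwΩ
  have hη0 : η ≠ 0 := by
    rintro rfl
    rw [← hη] at hprod
    apply hne
    have : (γd * algebraMap k Ω w) ^ 2 = 0 := by rw [← hprod]; ring
    exact pow_eq_zero_iff (two_ne_zero) |>.1 this
  set η' : Ω := γd * algebraMap k Ω w / η with hη'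
  have hη'0 : η' ≠ 0 := div_ne_zero hne hη0
  have hη'2 : η' ^ 2 = algebraMap k Ω u - γc := by
    rw [hη', div_pow, ← hprod, hη]
    have : (algebraMap k Ω u + γc) ≠ 0 := by rw [← hη]; exact pow_ne_zero _ hη0
    field_simp
  have hηη' : η * η' = γd * algebraMap k Ω w := by rw [hη']; field_simp
  -- the conjugates
  let E : ZMod 2 → Ω := fun e => if e = 0 then η else η'
  have hE0 : E 0 = η := by simp [E]
  have hE1 : E 1 = η' := by simp [E]
  have hEne : ∀ e, E e ≠ 0 := by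
    intro e; rcases zmod2 e with rfl | rfl
    · rw [hE0]; exact hη0
    · rw [hE1]; exact hη'0
  have hex : ∀ σ : Ω ≃ₐ[k] Ω, ∃ e : ZMod 2, σ η = sg e * E (c σ) := by
    intro σ
    have h1 : (σ η) ^ 2 = (E (c σ)) ^ 2 := by
      rw [← map_pow, hη, map_add, AlgEquiv.commutes, hc]
      rcases zmod2 (c σ) with h | h
      · rw [h, hE0, sg_zero, one_mul, hη]
      · rw [h, hE1, sg_one, hη'2]; ring
    rcases sq_eq_sq_iff_eq_or_eq_neg.1 h1 with h2 | h2
    · exact ⟨0, by rw [sg_zero, one_mul, h2]⟩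
    · exact ⟨1, by rw [sg_one, h2]; ring⟩
  choose l hl using hex
  have hη'act : ∀ σ : Ω ≃ₐ[k] Ω, σ η' = sg (l σ + d σ) * E (1 + c σ) := by
    intro σ
    have h1 : σ η * σ η' = sg (d σ) * (γd * algebraMap k Ω w) := by
      rw [← map_mul, hηη', map_mul, hd, AlgEquiv.commutes]; ring
    rw [hl σ] at h1
    have h2 : E (c σ) * E (1 + c σ) = γd * algebraMap k Ω w := by
      rcases zmod2 (c σ) with h | h
      · rw [h, add_zero, hE0, hE1, hηη']
      · have : (1 + 1 : ZMod 2) = 0 := by decide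
        rw [h, this, hE0, hE1, mul_comm, hηη']
    have h3 : sg (l σ) * E (c σ) ≠ 0 := by
      apply mul_ne_zero _ (hEne _)
      rcases zmod2 (l σ) with h | h
      · rw [h, sg_zero]; exact one_ne_zero
      · rw [h, sg_one]; exact neg_ne_zero.2 one_ne_zero
    apply mul_left_cancel₀ h3
    rw [h1, sg_add, ← h2]
    have h4 : (sg (l σ) : Ω) * sg (l σ) = 1 := by
      rcases zmod2 (l σ) with h | h
      · rw [h, sg_zero, one_mul]
      · rw [h, sg_one]; ring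
    linear_combination (-(sg (d σ)) * E (c σ) * E (1 + c σ)) * h4
  have hEact : ∀ (σ : Ω ≃ₐ[k] Ω) (e : ZMod 2), σ (E e) = sg (l σ + d σ * e) * E (e + c σ) := by
    intro σ e
    rcases zmod2 e with rfl | rfl
    · rw [hE0, mul_zero, add_zero, zero_add]; exact hl σ
    · rw [hE1, mul_one]; exact hη'act σ
  refine ⟨η, l, ?_, ?_⟩
  · intro σ τ
    apply sg_inj (R := Ω)
    apply mul_right_cancel₀ (hEne (c (σ * τ)))
    rw [← hl, AlgEquiv.mul_apply, hl τ, map_mul, map_sg, hEact, hcm, add_comm (c σ) (c τ)]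
    rw [sg_add, sg_add, sg_add]
    ring
  · intro σ hcσ hση
    apply sg_inj (R := Ω)
    apply mul_right_cancel₀ hη0
    have := hl σ
    rw [hcσ, hE0, hση] at this
    rw [← this, sg_zero, one_mul]

end

end Pool.Agent.Helper56.Quat
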