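import Mathlib

set_option autoImplicit false

namespace Pool.Agent.Helper56.Quat

/-- `K/k` is a `G`-extension (inside the extension `Ω` of `k`): finite Galois, with Galois group
isomorphic to `G`. -/
def IsGExt {k Ω : Type*} [Field k] [Field Ω] [Algebra k Ω] (G : Type) [Group G]
    (K : IntermediateField k Ω) : Prop :=
  FiniteDimensional k K ∧ IsGalois k K ∧ Nonempty ((K ≃ₐ[k] K) ≃* G)

end Pool.Agent.Helper56.Quat
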