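import Pool.Agent.Helper56.Quat.Defs
import Pool.Agent.Helper56.Quat.Alg

set_option autoImplicit false

namespace Pool.Agent.Helper56.Quat

open IntermediateField

variable {k Ω : Type*} [Field k] [Field Ω] [Algebra k Ω] [IsGalois k Ω]

/-- From a surjective homomorphism of the absolute Galois group with open kernel to a field. -/
lemma exists_field {D : Type} [Group D] (Φ : (Ω ≃ₐ[k] Ω) →* D) (hsurj : Function.Surjective Φ)
    (F₀ : IntermediateField k Ω) [FiniteDimensional k F₀]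
    (hF : ∀ σ ∈ F₀.fixingSubgroup, Φ σ = 1) :
    ∃ L : IntermediateField k Ω, IsGExt D L ∧ ∀ σ, σ ∈ L.fixingSubgroup ↔ Φ σ = 1 := by
  have hopen : IsOpen (Φ.ker : Set (Ω ≃ₐ[k] Ω)) := by
    apply Subgroup.isOpen_mono (H₁ := F₀.fixingSubgroup)
    · intro σ hσ
      exact hF σ hσ
    · exact F₀.fixingSubgroup_isOpen
  have hclosed : IsClosed (Φ.ker : Set (Ω ≃ₐ[k] Ω)) := Subgroup.isClosed_of_isOpen _ hopen
  let H : ClosedSubgroup (Ω ≃ₐ[k] Ω) := ⟨Φ.ker, hclosed⟩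
  have hH : (fixedField (H : Subgroup (Ω ≃ₐ[k] Ω))).fixingSubgroup = Φ.ker :=
    InfiniteGalois.fixingSubgroup_fixedField H
  set L : IntermediateField k Ω := fixedField Φ.ker with hL
  have hL' : L.fixingSubgroup = Φ.ker := hH
  have hfin : FiniteDimensional k L := by
    rw [← InfiniteGalois.isOpen_iff_finite]
    have : L.fixingSubgroup.carrier = (Φ.ker : Set (Ω ≃ₐ[k] Ω)) := by rw [hL']; rfl
    rw [this]; exact hopen
  have hgal : IsGalois k L := by
    rw [← InfiniteGalois.normal_iff_isGalois, hL']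
    infer_instance
  refine ⟨L, ⟨hfin, hgal, ⟨?_⟩⟩, fun σ => by rw [hL', MonoidHom.mem_ker]⟩
  have e1 : (Ω ≃ₐ[k] Ω) ⧸ Φ.ker ≃* D := QuotientGroup.quotientKerEquivOfSurjective Φ hsurj
  have hker : (AlgEquiv.restrictNormalHom L : (Ω ≃ₐ[k] Ω) →* (L ≃ₐ[k] L)).ker = Φ.ker := by
    rw [restrictNormalHom_ker, hL']
  have e2 : (Ω ≃ₐ[k] Ω) ⧸ (AlgEquiv.restrictNormalHom L : (Ω ≃ₐ[k] Ω) →* (L ≃ₐ[k] L)).ker ≃*
      (L ≃ₐ[k] L) :=
    QuotientGroup.quotientKerEquivOfSurjective _ (AlgEquiv.restrictNormalHom_surjective Ω)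
  have e3 : (Ω ≃ₐ[k] Ω) ⧸ (AlgEquiv.restrictNormalHom L : (Ω ≃ₐ[k] Ω) →* (L ≃ₐ[k] L)).ker ≃*
      (Ω ≃ₐ[k] Ω) ⧸ Φ.ker :=
    QuotientGroup.quotientMulEquivOfEq hker
  exact (e2.symm.trans e3).trans e1

/-- From a field to a surjective homomorphism. -/
lemma exists_hom {D : Type} [Group D] (L : IntermediateField k Ω) (hL : IsGExt D L) :
    ∃ Φ : (Ω ≃ₐ[k] Ω) →* D, Function.Surjective Φ ∧ ∀ σ, σ ∈ L.fixingSubgroup ↔ Φ σ = 1 := by
  obtain ⟨hfin, hgal, ⟨e⟩⟩ := hL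
  refine ⟨e.toMonoidHom.comp (AlgEquiv.restrictNormalHom L), ?_, ?_⟩
  · exact e.surjective.comp (AlgEquiv.restrictNormalHom_surjective Ω)
  · intro σ
    rw [← L.restrictNormalHom_ker, MonoidHom.mem_ker]
    simp

lemma le_of_fixing (K L : IntermediateField k Ω)
    (h : ∀ σ ∈ L.fixingSubgroup, σ ∈ K.fixingSubgroup) : K ≤ L := by
  rw [← InfiniteGalois.fixedField_fixingSubgroup L, IntermediateField.le_iff_le]
  exact h

omit [IsGalois k Ω] in
lemma mem_fixing_iSup {ι : Type*} (L : ι → IntermediateField k Ω) (σ : (Ω ≃ₐ[k] Ω)) :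
    σ ∈ (⨆ i, L i).fixingSubgroup ↔ ∀ i, σ ∈ (L i).fixingSubgroup := by
  constructor
  · intro h i
    exact IntermediateField.fixingSubgroup_le (le_iSup L i) h
  · intro h
    have : (⨆ i, L i) ≤ fixedField (Subgroup.zpowers σ) := by
      apply iSup_le
      intro i
      rw [IntermediateField.le_iff_le, Subgroup.zpowers_le]
      exact h i
    rw [IntermediateField.le_iff_le, Subgroup.zpowers_le] at this
    exact this

/-- Lower bound: fewer than three `D4`-extensions never contain a `Q8`-extension. -/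
lemma lower_bound (K : IntermediateField k Ω) (hK : IsGExt Q8 K) (m : ℕ)
    (L : Fin m → IntermediateField k Ω) (hL : ∀ i, IsGExt D4 (L i)) (hKL : K ≤ ⨆ i, L i) :
    3 ≤ m := by
  classical
  obtain ⟨ΦK, hKs, hKk⟩ := exists_hom K hK
  choose Φ hΦs hΦk using fun i => exists_hom (L i) (hL i)
  let J : (Ω ≃ₐ[k] Ω) →* (Fin m → D4) := MonoidHom.pi Φ
  have hJ : ∀ σ, J σ = 1 → ΦK σ = 1 := by
    intro σ hσ
    rw [← hKk]
    apply IntermediateField.fixingSubgroup_le hKL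
    rw [mem_fixing_iSup]
    intro i
    rw [hΦk]
    exact congrFun hσ i
  have : Fintype J.range := Fintype.ofFinite _
  -- the hom on the range
  have hker : J.ker ≤ ΦK.ker := fun σ hσ => hJ σ hσ
  let e : (Ω ≃ₐ[k] Ω) ⧸ J.ker ≃* J.range := QuotientGroup.quotientKerEquivRange J
  let ψ : (Ω ≃ₐ[k] Ω) ⧸ J.ker →* Q8 := QuotientGroup.lift J.ker ΦK hker
  have hψ : Function.Surjective ψ := by
    intro q
    obtain ⟨σ, hσ⟩ := hKs q
    exact ⟨QuotientGroup.mk σ, by simpa [ψ] using hσ⟩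
  refine three_le m (P := J.range) (fun i => (Pi.evalMonoidHom (fun _ : Fin m => D4) i).comp
    J.range.subtype) ?_ ?_ (ψ.comp e.symm.toMonoidHom) (hψ.comp e.symm.surjective)
  · intro i d
    obtain ⟨σ, hσ⟩ := hΦs i d
    exact ⟨⟨J σ, ⟨σ, rfl⟩⟩, hσ⟩
  · intro p hp
    ext i
    exact hp i

end Pool.Agent.Helper56.Quat
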