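import Pool.Agent.Helper56.Quat.Cochain

set_option autoImplicit false

namespace Pool.Agent.Helper56.Quat

open IntermediateField

/-! ### Polynomial identities (Euler–Rodrigues) -/

section poly

variable {R : Type*} [CommRing R]

def fA (x0 x1 x2 x3 : R) : Fin 3 → R :=
  ![x0 ^ 2 + x1 ^ 2 - x2 ^ 2 - x3 ^ 2, 2 * (x1 * x2 - x0 * x3), 2 * (x1 * x3 + x0 * x2)]

def fB (x0 x1 x2 x3 : R) : Fin 3 → R :=
  ![2 * (x1 * x2 + x0 * x3), x0 ^ 2 - x1 ^ 2 + x2 ^ 2 - x3 ^ 2, 2 * (x2 * x3 - x0 * x1)]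

lemma fA_norm (x0 x1 x2 x3 : R) : ∑ i, fA x0 x1 x2 x3 i ^ 2 =
    (x0 ^ 2 + x1 ^ 2 + x2 ^ 2 + x3 ^ 2) ^ 2 := by
  simp [fA, Fin.sum_univ_three]; ring

lemma fB_norm (x0 x1 x2 x3 : R) : ∑ i, fB x0 x1 x2 x3 i ^ 2 =
    (x0 ^ 2 + x1 ^ 2 + x2 ^ 2 + x3 ^ 2) ^ 2 := by
  simp [fB, Fin.sum_univ_three]; ring

lemma fAB (x0 x1 x2 x3 : R) : ∑ i, fA x0 x1 x2 x3 i * fB x0 x1 x2 x3 i = 0 := by
  simp [fA, fB, Fin.sum_univ_three]; ring

end poly

variable {k Ω : Type*} [Field k] [Field Ω] [Algebra k Ω] [CharZero Ω]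

omit [CharZero Ω] in
lemma map_fA (σ : Ω ≃ₐ[k] Ω) (x0 x1 x2 x3 : Ω) (i : Fin 3) :
    σ (fA x0 x1 x2 x3 i) = fA (σ x0) (σ x1) (σ x2) (σ x3) i := by
  fin_cases i <;> simp [fA, map_ofNat]

omit [CharZero Ω] in
lemma map_fB (σ : Ω ≃ₐ[k] Ω) (x0 x1 x2 x3 : Ω) (i : Fin 3) :
    σ (fB x0 x1 x2 x3 i) = fB (σ x0) (σ x1) (σ x2) (σ x3) i := by
  fin_cases i <;> simp [fB, map_ofNat]

omit [CharZero Ω] in
/-- the transformation rules -/
lemma transf (Φ : (Ω ≃ₐ[k] Ω) →* Q8) (D : Q8 → Ω) (hD : ∀ (σ : Ω ≃ₐ[k] Ω) q, σ (D q) = D (Φ σ * q))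
    (hz : ∀ q, D (.a 2 * q) = - D q) (x0 x1 x2 x3 : Ω) (f0 : D (.a 0) = x0) (f1 : D (.a 1) = x1)
    (f4 : D (.xa 0) = x2) (f7 : D (.xa 3) = x3) (σ : Ω ≃ₐ[k] Ω) :
    (∀ i, σ (fA x0 x1 x2 x3 i) = sg (cA (Φ σ)) * fA x0 x1 x2 x3 i) ∧
    (∀ i, σ (fB x0 x1 x2 x3 i) = sg (cB (Φ σ)) * fB x0 x1 x2 x3 i) ∧
    σ (x0 ^ 2 + x1 ^ 2 + x2 ^ 2 + x3 ^ 2) = x0 ^ 2 + x1 ^ 2 + x2 ^ 2 + x3 ^ 2 := by
  have f2 : D (.a 2) = - x0 := by rw [← f0, ← hz]; congr 1
  have f3 : D (.a 3) = - x1 := by rw [← f1, ← hz]; congr 1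
  have f5 : D (.xa 1) = - x3 := by rw [← f7, ← hz]; congr 1
  have f6 : D (.xa 2) = - x2 := by rw [← f4, ← hz]; congr 1
  have h0 := hD σ (.a 0)
  have h1 := hD σ (.a 1)
  have h2 := hD σ (.xa 0)
  have h3 := hD σ (.xa 3)
  rw [f0] at h0
  rw [f1] at h1
  rw [f4] at h2
  rw [f7] at h3
  have c0 : (sg (0 : ZMod 2) : Ω) = 1 := sg_zero
  have c1 : (sg (1 : ZMod 2) : Ω) = -1 := sg_one
  have main : ∀ (g : Q8) (A B : ZMod 2) (y0 y1 y2 y3 : Ω), Φ σ = g → cA g = A → cB g = B →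
      D (g * .a 0) = y0 → D (g * .a 1) = y1 → D (g * .xa 0) = y2 → D (g * .xa 3) = y3 →
      (∀ i, fA y0 y1 y2 y3 i = sg A * fA x0 x1 x2 x3 i) →
      (∀ i, fB y0 y1 y2 y3 i = sg B * fB x0 x1 x2 x3 i) →
      y0 ^ 2 + y1 ^ 2 + y2 ^ 2 + y3 ^ 2 = x0 ^ 2 + x1 ^ 2 + x2 ^ 2 + x3 ^ 2 →
      (∀ i, σ (fA x0 x1 x2 x3 i) = sg (cA (Φ σ)) * fA x0 x1 x2 x3 i) ∧
      (∀ i, σ (fB x0 x1 x2 x3 i) = sg (cB (Φ σ)) * fB x0 x1 x2 x3 i) ∧
      σ (x0 ^ 2 + x1 ^ 2 + x2 ^ 2 + x3 ^ 2) = x0 ^ 2 + x1 ^ 2 + x2 ^ 2 + x3 ^ 2 := by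
    intro g A B y0 y1 y2 y3 hg hA hB hy0 hy1 hy2 hy3 k1 k2 k3
    rw [hg] at h0 h1 h2 h3 ⊢
    refine ⟨fun i => ?_, fun i => ?_, ?_⟩
    · rw [map_fA, h0, h1, h2, h3, hy0, hy1, hy2, hy3, hA, k1]
    · rw [map_fB, h0, h1, h2, h3, hy0, hy1, hy2, hy3, hB, k2]
    · rw [map_add, map_add, map_add, map_pow, map_pow, map_pow, map_pow, h0, h1, h2, h3, hy0, hy1,
        hy2, hy3, k3]
  obtain ⟨g, hg⟩ : ∃ g, Φ σ = g := ⟨_, rfl⟩
  have hall : ∀ g : Q8, g = .a 0 ∨ g = .a 1 ∨ g = .a 2 ∨ g = .a 3 ∨ g = .xa 0 ∨ g = .xa 1 ∨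
      g = .xa 2 ∨ g = .xa 3 := by decide
  rcases hall g with h | h | h | h | h | h | h | h
  · exact main (.a 0) 0 0 x0 x1 x2 x3 (hg.trans h) (by decide) (by decide)
      (by rw [show (.a 0 * .a 0 : Q8) = .a 0 by decide, f0])
      (by rw [show (.a 0 * .a 1 : Q8) = .a 1 by decide, f1])
      (by rw [show (.a 0 * .xa 0 : Q8) = .xa 0 by decide, f4])
      (by rw [show (.a 0 * .xa 3 : Q8) = .xa 3 by decide, f7])
      (fun i => by rw [c0]; fin_cases i <;>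
        (simp only [fA, Fin.zero_eta, Fin.isValue, Fin.mk_one, Fin.reduceFinMk, Matrix.cons_val]; ring))
      (fun i => by rw [c0]; fin_cases i <;>
        (simp only [fB, Fin.zero_eta, Fin.isValue, Fin.mk_one, Fin.reduceFinMk, Matrix.cons_val]; ring)) (by ring)
  · exact main (.a 1) 0 1 x1 (-x0) x3 (-x2) (hg.trans h) (by decide) (by decide)
      (by rw [show (.a 1 * .a 0 : Q8) = .a 1 by decide, f1])
      (by rw [show (.a 1 * .a 1 : Q8) = .a 2 by decide, f2])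
      (by rw [show (.a 1 * .xa 0 : Q8) = .xa 3 by decide, f7])
      (by rw [show (.a 1 * .xa 3 : Q8) = .xa 2 by decide, f6])
      (fun i => by rw [c0]; fin_cases i <;>
        (simp only [fA, Fin.zero_eta, Fin.isValue, Fin.mk_one, Fin.reduceFinMk, Matrix.cons_val]; ring))
      (fun i => by rw [c1]; fin_cases i <;>
        (simp only [fB, Fin.zero_eta, Fin.isValue, Fin.mk_one, Fin.reduceFinMk, Matrix.cons_val]; ring)) (by ring)
  · exact main (.a 2) 0 0 (-x0) (-x1) (-x2) (-x3) (hg.trans h) (by decide) (by decide)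
      (by rw [show (.a 2 * .a 0 : Q8) = .a 2 by decide, f2])
      (by rw [show (.a 2 * .a 1 : Q8) = .a 3 by decide, f3])
      (by rw [show (.a 2 * .xa 0 : Q8) = .xa 2 by decide, f6])
      (by rw [show (.a 2 * .xa 3 : Q8) = .xa 1 by decide, f5])
      (fun i => by rw [c0]; fin_cases i <;>
        (simp only [fA, Fin.zero_eta, Fin.isValue, Fin.mk_one, Fin.reduceFinMk, Matrix.cons_val]; ring))
      (fun i => by rw [c0]; fin_cases i <;>
        (simp only [fB, Fin.zero_eta, Fin.isValue, Fin.mk_one, Fin.reduceFinMk, Matrix.cons_val]; ring)) (by ring)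
  · exact main (.a 3) 0 1 (-x1) x0 (-x3) x2 (hg.trans h) (by decide) (by decide)
      (by rw [show (.a 3 * .a 0 : Q8) = .a 3 by decide, f3])
      (by rw [show (.a 3 * .a 1 : Q8) = .a 0 by decide, f0])
      (by rw [show (.a 3 * .xa 0 : Q8) = .xa 1 by decide, f5])
      (by rw [show (.a 3 * .xa 3 : Q8) = .xa 0 by decide, f4])
      (fun i => by rw [c0]; fin_cases i <;>
        (simp only [fA, Fin.zero_eta, Fin.isValue, Fin.mk_one, Fin.reduceFinMk, Matrix.cons_val]; ring))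
      (fun i => by rw [c1]; fin_cases i <;>
        (simp only [fB, Fin.zero_eta, Fin.isValue, Fin.mk_one, Fin.reduceFinMk, Matrix.cons_val]; ring)) (by ring)
  · exact main (.xa 0) 1 0 x2 (-x3) (-x0) x1 (hg.trans h) (by decide) (by decide)
      (by rw [show (.xa 0 * .a 0 : Q8) = .xa 0 by decide, f4])
      (by rw [show (.xa 0 * .a 1 : Q8) = .xa 1 by decide, f5])
      (by rw [show (.xa 0 * .xa 0 : Q8) = .a 2 by decide, f2])
      (by rw [show (.xa 0 * .xa 3 : Q8) = .a 1 by decide, f1])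
      (fun i => by rw [c1]; fin_cases i <;>
        (simp only [fA, Fin.zero_eta, Fin.isValue, Fin.mk_one, Fin.reduceFinMk, Matrix.cons_val]; ring))
      (fun i => by rw [c0]; fin_cases i <;>
        (simp only [fB, Fin.zero_eta, Fin.isValue, Fin.mk_one, Fin.reduceFinMk, Matrix.cons_val]; ring)) (by ring)
  · exact main (.xa 1) 1 1 (-x3) (-x2) x1 x0 (hg.trans h) (by decide) (by decide)
      (by rw [show (.xa 1 * .a 0 : Q8) = .xa 1 by decide, f5])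
      (by rw [show (.xa 1 * .a 1 : Q8) = .xa 2 by decide, f6])
      (by rw [show (.xa 1 * .xa 0 : Q8) = .a 1 by decide, f1])
      (by rw [show (.xa 1 * .xa 3 : Q8) = .a 0 by decide, f0])
      (fun i => by rw [c1]; fin_cases i <;>
        (simp only [fA, Fin.zero_eta, Fin.isValue, Fin.mk_one, Fin.reduceFinMk, Matrix.cons_val]; ring))
      (fun i => by rw [c1]; fin_cases i <;>
        (simp only [fB, Fin.zero_eta, Fin.isValue, Fin.mk_one, Fin.reduceFinMk, Matrix.cons_val]; ring)) (by ring)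
  · exact main (.xa 2) 1 0 (-x2) x3 x0 (-x1) (hg.trans h) (by decide) (by decide)
      (by rw [show (.xa 2 * .a 0 : Q8) = .xa 2 by decide, f6])
      (by rw [show (.xa 2 * .a 1 : Q8) = .xa 3 by decide, f7])
      (by rw [show (.xa 2 * .xa 0 : Q8) = .a 0 by decide, f0])
      (by rw [show (.xa 2 * .xa 3 : Q8) = .a 3 by decide, f3])
      (fun i => by rw [c1]; fin_cases i <;>
        (simp only [fA, Fin.zero_eta, Fin.isValue, Fin.mk_one, Fin.reduceFinMk, Matrix.cons_val]; ring))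
      (fun i => by rw [c0]; fin_cases i <;>
        (simp only [fB, Fin.zero_eta, Fin.isValue, Fin.mk_one, Fin.reduceFinMk, Matrix.cons_val]; ring)) (by ring)
  · exact main (.xa 3) 1 1 x3 x2 (-x1) (-x0) (hg.trans h) (by decide) (by decide)
      (by rw [show (.xa 3 * .a 0 : Q8) = .xa 3 by decide, f7])
      (by rw [show (.xa 3 * .a 1 : Q8) = .xa 0 by decide, f4])
      (by rw [show (.xa 3 * .xa 0 : Q8) = .a 3 by decide, f3])
      (by rw [show (.xa 3 * .xa 3 : Q8) = .a 2 by decide, f2])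
      (fun i => by rw [c1]; fin_cases i <;>
        (simp only [fA, Fin.zero_eta, Fin.isValue, Fin.mk_one, Fin.reduceFinMk, Matrix.cons_val]; ring))
      (fun i => by rw [c1]; fin_cases i <;>
        (simp only [fB, Fin.zero_eta, Fin.isValue, Fin.mk_one, Fin.reduceFinMk, Matrix.cons_val]; ring)) (by ring)

end Pool.Agent.Helper56.Quat
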