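import Pool.Agent.Helper56.Quat.Struct

set_option autoImplicit false

namespace Pool.Agent.Helper56.Quat

open IntermediateField

variable {k Ω : Type*} [Field k] [Field Ω] [Algebra k Ω] [CharZero Ω] [IsGalois k Ω]

lemma sg_sq {R : Type*} [Ring R] (e : ZMod 2) : (sg e : R) * sg e = 1 := by
  rcases zmod2 e with rfl | rfl
  · rw [sg_zero, one_mul]
  · rw [sg_one]; simp

lemma exists_ab (K : IntermediateField k Ω) (Φ : (Ω ≃ₐ[k] Ω) →* Q8) (hs : Function.Surjective Φ)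
    (hk : ∀ σ, σ ∈ K.fixingSubgroup ↔ Φ σ = 1) :
    ∃ (α β : Ω) (p r : Fin 3 → k), α ≠ 0 ∧ β ≠ 0 ∧
      (∀ σ, σ α = sg (cA (Φ σ)) * α) ∧ (∀ σ, σ β = sg (cB (Φ σ)) * β) ∧
      α ^ 2 = algebraMap k Ω (∑ i, p i ^ 2) ∧ β ^ 2 = algebraMap k Ω (∑ i, r i ^ 2) ∧
      ∑ i, p i * r i = 0 := by
  choose s hs' using hs
  -- elements on which the action factors through `Q8`
  let P : Ω → Prop := fun v => ∀ σ τ : Ω ≃ₐ[k] Ω, Φ σ = Φ τ → σ v = τ v
  have hPK : ∀ y ∈ K, P y := by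
    intro y hy σ τ hστ
    have h1 : Φ (τ⁻¹ * σ) = 1 := by rw [map_mul, map_inv, hστ]; simp
    have h2 := (hk _).2 h1
    have h3 : (τ⁻¹ * σ) y = y := by
      rw [IntermediateField.mem_fixingSubgroup_iff] at h2
      exact h2 y hy
    have h4 : τ ((τ⁻¹ * σ) y) = τ y := by rw [h3]
    rw [← AlgEquiv.mul_apply] at h4
    simpa using h4
  have hPact : ∀ v (ρ : Ω ≃ₐ[k] Ω), P v → P (ρ v) := by
    intro v ρ hv σ τ hστ
    rw [← AlgEquiv.mul_apply, ← AlgEquiv.mul_apply]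
    apply hv
    rw [map_mul, map_mul, hστ]
  obtain ⟨z, hz⟩ : ∃ z : Q8, z = .a 2 := ⟨_, rfl⟩
  have hz2 : z * z = 1 := by rw [hz]; decide
  have hz1 : z ≠ 1 := by rw [hz]; decide
  have hzc : ∀ q, z * q = q * z := by rw [hz]; decide
  obtain ⟨y, hyK, hy⟩ : ∃ y ∈ K, s z y ≠ y := by
    by_contra hcon
    push Not at hcon
    apply hz1
    rw [← hs' z, ← hk, IntermediateField.mem_fixingSubgroup_iff]
    exact hcon
  obtain ⟨δ0, hδ0⟩ : ∃ δ0, δ0 = y - s z y := ⟨_, rfl⟩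
  have hPδ0 : P δ0 := by
    intro σ τ hστ
    rw [hδ0, map_sub, map_sub, hPK y hyK σ τ hστ, hPact y (s z) (hPK y hyK) σ τ hστ]
  have hzδ0 : s z δ0 = - δ0 := by
    have h1 : s z (s z y) = y := by
      rw [← AlgEquiv.mul_apply]
      have := hPK y hyK (s z * s z) 1 (by rw [map_mul, hs', hz2, map_one])
      rw [this]; rfl
    rw [hδ0, map_sub, h1]; ring
  have hδ00 : δ0 ≠ 0 := by
    rw [hδ0]; exact sub_ne_zero.2 hy.symm
  obtain ⟨δ, hPδ, hzδ, hT⟩ : ∃ δ, P δ ∧ s z δ = - δ ∧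
      (s (.a 0) δ) ^ 2 + (s (.a 1) δ) ^ 2 + (s (.xa 0) δ) ^ 2 + (s (.xa 3) δ) ^ 2 ≠ 0 := by
    by_contra hcon
    push Not at hcon
    have hPinv : P δ0⁻¹ := by
      intro σ τ hστ
      rw [map_inv₀, map_inv₀, hPδ0 σ τ hστ]
    have t1 := hcon δ0 hPδ0 hzδ0
    have t2 := hcon δ0⁻¹ hPinv (by rw [map_inv₀, hzδ0, inv_neg])
    have t3 := hcon (δ0 + δ0⁻¹) (by
      intro σ τ hστ
      rw [map_add, map_add, hPδ0 σ τ hστ, hPinv σ τ hστ])
      (by rw [map_add, map_inv₀, hzδ0, inv_neg]; ring)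
    have key : ∀ q, (s q (δ0 + δ0⁻¹)) ^ 2 = (s q δ0) ^ 2 + 2 + (s q δ0⁻¹) ^ 2 := by
      intro q
      rw [map_add, map_inv₀]
      have : s q δ0 ≠ 0 := by rwa [Ne, EmbeddingLike.map_eq_zero_iff]
      field_simp
      ring
    rw [key, key, key, key] at t3
    have : (8 : Ω) = 0 := by linear_combination t3 - t1 - t2
    norm_num at this
  -- the vector
  let D : Q8 → Ω := fun q => s q δ
  have hD : ∀ (σ : Ω ≃ₐ[k] Ω) q, σ (D q) = D (Φ σ * q) := by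
    intro σ q
    change σ (s q δ) = s (Φ σ * q) δ
    rw [← AlgEquiv.mul_apply]
    apply hPδ
    rw [map_mul, hs', hs']
  have hDz : ∀ q, D (.a 2 * q) = - D q := by
    intro q
    change s (.a 2 * q) δ = - s q δ
    rw [← map_neg, ← hzδ, ← AlgEquiv.mul_apply]
    apply hPδ
    rw [map_mul, hs', hs', hs', ← hz, hzc]
  have htr := transf Φ D hD hDz (D (.a 0)) (D (.a 1)) (D (.xa 0)) (D (.xa 3)) rfl rfl rfl rfl
  obtain ⟨f, hf⟩ : ∃ f, f = fA (D (.a 0)) (D (.a 1)) (D (.xa 0)) (D (.xa 3)) := ⟨_, rfl⟩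
  obtain ⟨g, hg⟩ : ∃ g, g = fB (D (.a 0)) (D (.a 1)) (D (.xa 0)) (D (.xa 3)) := ⟨_, rfl⟩
  have hfn := fA_norm (D (.a 0)) (D (.a 1)) (D (.xa 0)) (D (.xa 3))
  have hgn := fB_norm (D (.a 0)) (D (.a 1)) (D (.xa 0)) (D (.xa 3))
  have hfg := fAB (D (.a 0)) (D (.a 1)) (D (.xa 0)) (D (.xa 3))
  obtain ⟨T, hTdef⟩ : ∃ T, T = D (.a 0) ^ 2 + D (.a 1) ^ 2 + D (.xa 0) ^ 2 + D (.xa 3) ^ 2 :=
    ⟨_, rfl⟩
  have hT0 : T ≠ 0 := by rw [hTdef]; exact hT
  rw [← hf, ← hTdef] at hfn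
  rw [← hg, ← hTdef] at hgn
  rw [← hf, ← hg] at hfg
  rw [← hf, ← hg, ← hTdef] at htr
  have hex : ∀ h : Fin 3 → Ω, ∑ i, h i ^ 2 = T ^ 2 → ∃ i, h i ≠ 0 := by
    intro h hh
    by_contra hcon
    push Not at hcon
    apply hT0
    have : T ^ 2 = 0 := by rw [← hh]; simp [hcon]
    exact pow_eq_zero_iff two_ne_zero |>.1 this
  obtain ⟨i0, hi0⟩ := hex f hfn
  obtain ⟨j0, hj0⟩ := hex g hgn
  have hp : ∀ i, ∃ c : k, algebraMap k Ω c = f i0 * f i / T := by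
    intro i
    have := (InfiniteGalois.mem_range_algebraMap_iff_fixed (k := k) (f i0 * f i / T)).2 (by
      intro σ
      rw [map_div₀, map_mul, (htr σ).1, (htr σ).1, (htr σ).2.2]
      congr 1
      linear_combination (f i0 * f i) * (sg_sq (R := Ω) (cA (Φ σ))))
    exact this
  have hr : ∀ i, ∃ c : k, algebraMap k Ω c = g j0 * g i / T := by
    intro i
    have := (InfiniteGalois.mem_range_algebraMap_iff_fixed (k := k) (g j0 * g i / T)).2 (by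
      intro σ
      rw [map_div₀, map_mul, (htr σ).2.1, (htr σ).2.1, (htr σ).2.2]
      congr 1
      linear_combination (g j0 * g i) * (sg_sq (R := Ω) (cB (Φ σ))))
    exact this
  choose p hp' using hp
  choose r hr' using hr
  refine ⟨f i0, g j0, p, r, hi0, hj0, fun σ => (htr σ).1 i0, fun σ => (htr σ).2.1 j0, ?_, ?_, ?_⟩
  · rw [map_sum]
    simp_rw [map_pow, hp', div_pow, mul_pow]
    rw [← Finset.sum_div, ← Finset.mul_sum, hfn]
    field_simp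
  · rw [map_sum]
    simp_rw [map_pow, hr', div_pow, mul_pow]
    rw [← Finset.sum_div, ← Finset.mul_sum, hgn]
    field_simp
  · apply (algebraMap k Ω).injective
    rw [map_sum, map_zero]
    simp_rw [map_mul, hp', hr']
    have : ∀ i, f i0 * f i / T * (g j0 * g i / T) = (f i0 * g j0 / T ^ 2) * (f i * g i) := by
      intro i; field_simp
    simp_rw [this]
    rw [← Finset.mul_sum, hfg, mul_zero]

end Pool.Agent.Helper56.Quat
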