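import Pool.Agent.Helper56.Quat.Struct2

set_option autoImplicit false

namespace Pool.Agent.Helper56.Quat

open IntermediateField

variable {k Ω : Type*} [Field k] [LinearOrder k] [IsStrictOrderedRing k] [Field Ω] [Algebra k Ω]
  [CharZero Ω] [IsGalois k Ω] [IsAlgClosed Ω]

omit [IsAlgClosed Ω] [CharZero Ω] in
/-- the character of the square root of a negative element is nontrivial -/
lemma char_nontrivial (ξ : Ω) (x : k) (hx : x < 0) (h : ξ ^ 2 = algebraMap k Ω x)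
    (X : (Ω ≃ₐ[k] Ω) → ZMod 2) (hX : ∀ σ, σ ξ = sg (X σ) * ξ) : ∃ σ, X σ = 1 := by
  by_contra hcon
  push Not at hcon
  have h0 : ∀ σ, X σ = 0 := by
    intro σ
    rcases zmod2 (X σ) with h | h
    · exact h
    · exact absurd h (hcon σ)
  obtain ⟨c, hc⟩ := (InfiniteGalois.mem_range_algebraMap_iff_fixed (k := k) ξ).2 (by
    intro σ
    rw [hX, h0, sg_zero, one_mul])
  rw [← hc, ← map_pow] at h
  have h2 := (algebraMap k Ω).injective h
  nlinarith [sq_nonneg c]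

lemma homD_surj {G : Type*} [Group G] (c d l : G → ZMod 2)
    (hc : ∀ g h, c (g * h) = c g + c h) (hd : ∀ g h, d (g * h) = d g + d h)
    (hl : ∀ g h, l (g * h) = l g + l h + d g * c h)
    (h1 : ∃ g, c g = 1) (h2 : ∃ g, d g = 1) (h3 : ∃ g, c g + d g = 1) :
    Function.Surjective (homD c d l hc hd hl) := by
  rw [← MonoidHom.range_eq_top]
  apply D4_top
  · obtain ⟨g, hg⟩ := h1
    exact ⟨c g, d g, l g, ⟨g, rfl⟩, hg⟩
  · obtain ⟨g, hg⟩ := h2
    exact ⟨c g, d g, l g, ⟨g, rfl⟩, hg⟩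
  · obtain ⟨g, hg⟩ := h3
    exact ⟨c g, d g, l g, ⟨g, rfl⟩, hg⟩

lemma zmod2_add_self (e : ZMod 2) : e + e = 0 := by revert e; decide

/-- Upper bound: three `D4`-extensions suffice. -/
theorem upper_bound (K : IntermediateField k Ω) (hK : IsGExt Q8 K) :
    ∃ L : Fin 3 → IntermediateField k Ω, (∀ i, IsGExt D4 (L i)) ∧ K ≤ ⨆ i, L i := by
  obtain ⟨Φ, hΦs, hΦk⟩ := exists_hom K hK
  have hKfin : FiniteDimensional k K := hK.1
  obtain ⟨α, β, p, r, hα, hβ, hαact, hβact, hα2, hβ2, hpr⟩ := exists_ab K Φ hΦs hΦk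
  obtain ⟨a, ha⟩ : ∃ a, a = ∑ i, p i ^ 2 := ⟨_, rfl⟩
  obtain ⟨b, hb⟩ : ∃ b, b = ∑ i, r i ^ 2 := ⟨_, rfl⟩
  rw [← ha] at hα2
  rw [← hb] at hβ2
  have ha0 : 0 < a := by
    apply lt_of_le_of_ne
    · rw [ha]; exact Finset.sum_nonneg (fun i _ => sq_nonneg _)
    · intro h
      rw [← h, map_zero] at hα2
      exact hα (pow_eq_zero_iff two_ne_zero |>.1 hα2)
  have hb0 : 0 < b := by
    apply lt_of_le_of_ne
    · rw [hb]; exact Finset.sum_nonneg (fun i _ => sq_nonneg _)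
    · intro h
      rw [← h, map_zero] at hβ2
      exact hβ (pow_eq_zero_iff two_ne_zero |>.1 hβ2)
  rw [Fin.sum_univ_three] at ha hb hpr
  obtain ⟨x, u, w, u', w', hx, h1, h2⟩ := choose_x (p 0) (p 1) (p 2) (r 0) (r 1) (r 2) hpr a b
    ha hb ha0 hb0
  have hab0 : 0 < a * b := mul_pos ha0 hb0
  have hw : w ≠ 0 := by
    rintro rfl
    nlinarith [sq_nonneg u]
  have hw' : w' ≠ 0 := by
    rintro rfl
    have : b * x < 0 := mul_neg_of_pos_of_neg hb0 hx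
    nlinarith [sq_nonneg u']
  -- the square root of `x`
  obtain ⟨ξ, hξ⟩ := IsAlgClosed.exists_pow_nat_eq (algebraMap k Ω x) (n := 2) (by norm_num)
  have hξ0 : ξ ≠ 0 := by
    rintro rfl
    have : algebraMap k Ω x = 0 := by rw [← hξ]; ring
    rw [map_eq_zero] at this
    exact hx.ne this
  obtain ⟨X, hX⟩ := exists_char (k := k) ξ x hξ
  have hXm := char_mul ξ hξ0 X hX
  -- the characters
  obtain ⟨A, hA⟩ : ∃ A : (Ω ≃ₐ[k] Ω) → ZMod 2, A = fun σ => cA (Φ σ) := ⟨_, rfl⟩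
  obtain ⟨B, hB⟩ : ∃ B : (Ω ≃ₐ[k] Ω) → ZMod 2, B = fun σ => cB (Φ σ) := ⟨_, rfl⟩
  obtain ⟨κ, hκ⟩ : ∃ κ : (Ω ≃ₐ[k] Ω) → ZMod 2, κ = fun σ => cK (Φ σ) := ⟨_, rfl⟩
  have hAm : ∀ σ τ, A (σ * τ) = A σ + A τ := by
    intro σ τ; rw [hA]; simp only [map_mul, cA_mul]
  have hBm : ∀ σ τ, B (σ * τ) = B σ + B τ := by
    intro σ τ; rw [hB]; simp only [map_mul, cB_mul]
  have hκm : ∀ σ τ, κ (σ * τ) = κ σ + κ τ + (A σ * A τ + A σ * B τ + B σ * B τ) := by
    intro σ τ; rw [hκ, hA, hB]; simp only [map_mul, cK_mul]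
  have hAact : ∀ σ, σ α = sg (A σ) * α := by intro σ; rw [hA]; exact hαact σ
  have hBact : ∀ σ, σ β = sg (B σ) * β := by intro σ; rw [hB]; exact hβact σ
  have hABact : ∀ σ, σ (α * β) = sg (A σ + B σ) * (α * β) := by
    intro σ; rw [map_mul, hAact, hBact, sg_add]; ring
  have hBXact : ∀ σ, σ (β * ξ) = sg (B σ + X σ) * (β * ξ) := by
    intro σ; rw [map_mul, hX, hBact, sg_add]; ring
  have hABXact : ∀ σ, σ (α * β * ξ) = sg (A σ + B σ + X σ) * (α * β * ξ) := by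
    intro σ; rw [map_mul, hX, hABact, sg_add (A σ + B σ) (X σ)]; ring
  -- the two cochains
  obtain ⟨η2, l2, hl2, hl2'⟩ := exists_cochain (k := k) ξ (α * β) X (fun σ => A σ + B σ) hX hABact
    hXm u w hw (mul_ne_zero hα hβ) (by
      rw [hξ, mul_pow, hα2, hβ2, ← map_mul, ← map_pow, ← map_pow, ← map_mul, ← map_sub, h1])
  obtain ⟨η3, l3, hl3, hl3'⟩ := exists_cochain (k := k) (β * ξ) β (fun σ => B σ + X σ) B hBXact
    hBact (fun σ τ => by rw [hBm, hXm]; ring) u' w' hw' hβ (by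
      rw [mul_pow, hξ, hβ2, ← map_mul, ← map_pow, ← map_pow, ← map_mul, ← map_sub, h2])
  -- the third one
  obtain ⟨l1, hl1d⟩ : ∃ l1 : (Ω ≃ₐ[k] Ω) → ZMod 2, l1 = fun σ => κ σ + l2 σ + l3 σ := ⟨_, rfl⟩
  have hl1 : ∀ σ τ, l1 (σ * τ) = l1 σ + l1 τ + A σ * (A τ + B τ + X τ) := by
    intro σ τ
    rw [hl1d]
    simp only [hκm, hl2, hl3]
    generalize κ σ = e1
    generalize κ τ = e2
    generalize l2 σ = e3
    generalize l2 τ = e4
    generalize l3 σ = e5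
    generalize l3 τ = e6
    generalize A σ = e7
    generalize A τ = e8
    generalize B σ = e9
    generalize B τ = e10
    generalize X τ = e11
    have k1 := zmod2_add_self (e9 * e10)
    have k2 := zmod2_add_self (e9 * e11)
    linear_combination k1 + k2
  -- nontriviality
  have nA : ∃ σ, A σ = 1 := by
    obtain ⟨σ, hσ⟩ := hΦs (.xa 0)
    exact ⟨σ, by rw [hA]; change cA (Φ σ) = 1; rw [hσ]; decide⟩
  have nB : ∃ σ, B σ = 1 := by
    obtain ⟨σ, hσ⟩ := hΦs (.a 1)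
    exact ⟨σ, by rw [hB]; change cB (Φ σ) = 1; rw [hσ]; decide⟩
  have nAB : ∃ σ, A σ + B σ = 1 := by
    obtain ⟨σ, hσ⟩ := hΦs (.a 1)
    exact ⟨σ, by rw [hB, hA]; change cA (Φ σ) + cB (Φ σ) = 1; rw [hσ]; decide⟩
  have nX : ∃ σ, X σ = 1 := char_nontrivial ξ x hx hξ X hX
  have nBX : ∃ σ, B σ + X σ = 1 := by
    refine char_nontrivial (β * ξ) (b * x) (mul_neg_of_pos_of_neg hb0 hx) ?_ _ hBXact
    rw [mul_pow, hξ, hβ2, map_mul]
  have nABX : ∃ σ, A σ + B σ + X σ = 1 := by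
    refine char_nontrivial (α * β * ξ) (a * b * x) (mul_neg_of_pos_of_neg hab0 hx) ?_ _ hABXact
    rw [mul_pow, mul_pow, hξ, hα2, hβ2, map_mul, map_mul]
  -- the homomorphisms
  let Φ1 := homD (fun σ => A σ + B σ + X σ) A l1 (fun σ τ => by simp only [hAm, hBm, hXm]; ring) hAm hl1
  let Φ2 := homD X (fun σ => A σ + B σ) l2 hXm (fun σ τ => by simp only [hAm, hBm]; ring) hl2
  let Φ3 := homD (fun σ => B σ + X σ) B l3 (fun σ τ => by simp only [hBm, hXm]; ring) hBm hl3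
  have s1 : Function.Surjective Φ1 := by
    apply homD_surj _ _ _ _ _ _ nABX nA
    obtain ⟨σ, hσ⟩ := nBX
    exact ⟨σ, by linear_combination hσ + zmod2_add_self (A σ)⟩
  have s2 : Function.Surjective Φ2 := by
    apply homD_surj _ _ _ _ _ _ nX nAB
    obtain ⟨σ, hσ⟩ := nABX
    exact ⟨σ, by linear_combination hσ⟩
  have s3 : Function.Surjective Φ3 := by
    apply homD_surj _ _ _ _ _ _ nBX nB
    obtain ⟨σ, hσ⟩ := nX
    exact ⟨σ, by linear_combination hσ + zmod2_add_self (B σ)⟩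
  -- the finite extension
  let F0 : IntermediateField k Ω := K ⊔ IntermediateField.adjoin k {ξ, η2, η3, α, β}
  have hfin2 : FiniteDimensional k (IntermediateField.adjoin k ({ξ, η2, η3, α, β} : Set Ω)) :=
    IntermediateField.finiteDimensional_adjoin (fun x _ => Algebra.IsIntegral.isIntegral x)
  have hfin : FiniteDimensional k F0 := IntermediateField.finiteDimensional_sup _ _
  have hsub : ∀ v ∈ ({ξ, η2, η3, α, β} : Set Ω), v ∈ F0 := by
    intro v hv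
    exact (le_sup_right : _ ≤ F0) (IntermediateField.subset_adjoin _ _ hv)
  have hzero : ∀ σ ∈ F0.fixingSubgroup, A σ = 0 ∧ B σ = 0 ∧ X σ = 0 ∧ l2 σ = 0 ∧ l3 σ = 0 ∧
      κ σ = 0 := by
    intro σ hσ
    have hσK : σ ∈ K.fixingSubgroup :=
      IntermediateField.fixingSubgroup_le (le_sup_left : K ≤ F0) hσ
    have hΦσ : Φ σ = 1 := (hΦk σ).1 hσK
    rw [IntermediateField.mem_fixingSubgroup_iff] at hσ
    have zero_of : ∀ (v : Ω) (e : ZMod 2), v ≠ 0 → σ v = sg e * v → σ v = v → e = 0 := by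
      intro v e hv h1 h2
      apply sg_inj (R := Ω)
      apply mul_right_cancel₀ hv
      rw [← h1, h2, sg_zero, one_mul]
    have hAσ : A σ = 0 := zero_of α _ hα (hAact σ) (hσ α (hsub α (by simp)))
    have hBσ : B σ = 0 := zero_of β _ hβ (hBact σ) (hσ β (hsub β (by simp)))
    have hXσ : X σ = 0 := zero_of ξ _ hξ0 (hX σ) (hσ ξ (hsub ξ (by simp)))
    refine ⟨hAσ, hBσ, hXσ, hl2' σ hXσ (hσ η2 (hsub η2 (by simp))), ?_, ?_⟩
    · apply hl3' σ _ (hσ η3 (hsub η3 (by simp)))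

      rw [hBσ, hXσ, add_zero]
    · rw [hκ]; change cK (Φ σ) = 0; rw [hΦσ]; decide
  have hD0 : hD 0 0 0 = 1 := by decide
  obtain ⟨L1, hL1, hL1'⟩ := exists_field Φ1 s1 F0 (by
    intro σ hσ
    obtain ⟨q1, q2, q3, q4, q5, q6⟩ := hzero σ hσ
    change hD (A σ + B σ + X σ) (A σ) (l1 σ) = 1
    rw [hl1d]
    change hD (A σ + B σ + X σ) (A σ) (κ σ + l2 σ + l3 σ) = 1
    rw [q1, q2, q3, q4, q5, q6, add_zero, add_zero, hD0])
  obtain ⟨L2, hL2, hL2'⟩ := exists_field Φ2 s2 F0 (by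
    intro σ hσ
    obtain ⟨q1, q2, q3, q4, q5, q6⟩ := hzero σ hσ
    change hD (X σ) (A σ + B σ) (l2 σ) = 1
    rw [q1, q2, q3, q4, add_zero, hD0])
  obtain ⟨L3, hL3, hL3'⟩ := exists_field Φ3 s3 F0 (by
    intro σ hσ
    obtain ⟨q1, q2, q3, q4, q5, q6⟩ := hzero σ hσ
    change hD (B σ + X σ) (B σ) (l3 σ) = 1
    rw [q2, q3, q5, add_zero, hD0])
  refine ⟨![L1, L2, L3], ?_, ?_⟩
  · intro i
    fin_cases i
    · exact hL1
    · exact hL2
    · exact hL3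
  · apply le_of_fixing
    intro σ hσ
    rw [mem_fixing_iSup] at hσ
    have m1 : hD (A σ + B σ + X σ) (A σ) (l1 σ) = 1 := (hL1' σ).1 (hσ 0)
    have m2 : hD (X σ) (A σ + B σ) (l2 σ) = 1 := (hL2' σ).1 (hσ 1)
    have m3 : hD (B σ + X σ) (B σ) (l3 σ) = 1 := (hL3' σ).1 (hσ 2)
    obtain ⟨_, m12, m13⟩ := hD_eq_one _ _ _ m1
    obtain ⟨_, _, m23⟩ := hD_eq_one _ _ _ m2
    obtain ⟨_, m32, m33⟩ := hD_eq_one _ _ _ m3
    rw [hΦk]
    apply q8_eq_one
    · rw [hA] at m12; exact m12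
    · rw [hB] at m32; exact m32
    · rw [hl1d] at m13
      change κ σ + l2 σ + l3 σ = 0 at m13
      rw [m23, m33, add_zero, add_zero, hκ] at m13
      exact m13

/-- The general theorem over a field with an ordering. -/
theorem main (K : IntermediateField k Ω) (hK : IsGExt Q8 K) :
    IsLeast {m : ℕ | ∃ L : Fin m → IntermediateField k Ω, (∀ i, IsGExt D4 (L i)) ∧
      K ≤ ⨆ i, L i} 3 := by
  constructor
  · exact upper_bound K hK
  · rintro m ⟨L, hL, hKL⟩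
    exact lower_bound K hK m L hL hKL

end Pool.Agent.Helper56.Quat
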